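import Mathlib

set_option autoImplicit false

namespace Pool.Agent.Results.MP_18d2fb_an.NeumannDiverges

open Filter Topology BoundedContinuousFunction

/-- `E` is a space of type `(B_0)` (a Frechet space) over `𝕜`: a complete Hausdorff topological
vector space whose topology is given by an increasing sequence of seminorms. -/
def IsFrechet (𝕜 E : Type) [RCLike 𝕜] [AddCommGroup E] [Module 𝕜 E] [UniformSpace E] : Prop :=
  IsUniformAddGroup E ∧ ContinuousSMul 𝕜 E ∧ T2Space E ∧ CompleteSpace E ∧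
    ∃ p : SeminormFamily 𝕜 E ℕ, Monotone p ∧ WithSeminorms p

/-- `q n = ∏_{i<n} 2^{-i}`. -/
noncomputable def q (n : ℕ) : ℝ := ∏ i ∈ Finset.range n, (1 / 2 : ℝ) ^ i

theorem q_succ (n : ℕ) : q (n + 1) = q n * (1 / 2 : ℝ) ^ n := by
  unfold q
  rw [Finset.prod_range_succ]

theorem q_pos (n : ℕ) : 0 < q n := Finset.prod_pos fun i _ => by positivity

theorem tendsto_q (C : ℝ) (hC : 0 < C) : Tendsto (fun n => C ^ n * q n) atTop (𝓝 0) := by
  refine Summable.tendsto_atTop_zero ?_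
  refine summable_of_ratio_test_tendsto_lt_one (l := 0) zero_lt_one ?_ ?_
  · refine Eventually.of_forall fun n => ?_
    have := q_pos n
    positivity
  · have h1 : ∀ n, ‖C ^ (n + 1) * q (n + 1)‖ / ‖C ^ n * q n‖ = C * (1 / 2 : ℝ) ^ n := by
      intro n
      have hq := q_pos n
      have hq' := q_pos (n + 1)
      rw [Real.norm_of_nonneg (by positivity), Real.norm_of_nonneg (by positivity), q_succ]
      field_simp
      ring
    simp_rw [h1]
    have h2 : Tendsto (fun n : ℕ => (1 / 2 : ℝ) ^ n) atTop (𝓝 0) :=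
      tendsto_pow_atTop_nhds_zero_of_lt_one (by norm_num) (by norm_num)
    simpa using h2.const_mul C


section General
variable {𝕜 X : Type} [RCLike 𝕜] [NormedAddCommGroup X] [NormedSpace 𝕜 X] [CompleteSpace X]

theorem isUnit_sub (V : X →L[𝕜] X) (hV : ∀ n x, ‖(V ^ n) x‖ ≤ q n * ‖x‖) (c : 𝕜) (hc : c ≠ 0) :
    IsUnit (V - c • (1 : X →L[𝕜] X)) := by
  set A : X →L[𝕜] X := c⁻¹ • V with hA
  have hc' : 0 < ‖c‖⁻¹ := inv_pos.2 (norm_pos_iff.2 hc)
  obtain ⟨n, hn⟩ : ∃ n, ‖c‖⁻¹ ^ n * q n < 1 :=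
    ((tendsto_q _ hc').eventually (gt_mem_nhds zero_lt_one)).exists
  have hAn : ‖A ^ n‖ < 1 := by
    refine lt_of_le_of_lt ?_ hn
    have hq := q_pos n
    refine ContinuousLinearMap.opNorm_le_bound _ (by positivity) fun x => ?_
    rw [hA, smul_pow, _root_.smul_apply, norm_smul, norm_pow, norm_inv]
    calc ‖c‖⁻¹ ^ n * ‖(V ^ n) x‖ ≤ ‖c‖⁻¹ ^ n * (q n * ‖x‖) :=
          mul_le_mul_of_nonneg_left (hV n x) (by positivity)
      _ = _ := by ring
  have h1 : IsUnit (1 - A ^ n) := isUnit_one_sub_of_norm_lt_one hAn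
  have h2 : IsUnit (1 - A) := by
    rw [← mul_neg_geom_sum] at h1
    have hcomm : Commute (1 - A) (∑ i ∈ Finset.range n, A ^ i) := by
      refine Commute.sum_right _ _ _ fun i _ => ?_
      exact (Commute.one_left _).sub_left ((Commute.refl A).pow_right i)
    exact (hcomm.isUnit_mul_iff.1 h1).1
  have h3 : V - c • (1 : X →L[𝕜] X) = (Units.mk0 (-c) (neg_ne_zero.2 hc)) • (1 - A) := by
    rw [Units.smul_mk0, hA, smul_sub, smul_smul, neg_mul, mul_inv_cancel₀ hc]
    module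
  rw [h3]
  exact h2.smul _

/-- The Frechet space: sequences `F` of elements of `X` with `F k = V (F (k+1))`. -/
noncomputable def E (V : X →L[𝕜] X) : Submodule 𝕜 (ℕ → X) where
  carrier := {F | ∀ k, F k = V (F (k + 1))}
  add_mem' := by
    intro F G hF hG k
    rw [Pi.add_apply, Pi.add_apply, map_add, ← hF k, ← hG k]
  zero_mem' := by
    intro k
    simp
  smul_mem' := by
    intro c F hF k
    rw [Pi.smul_apply, Pi.smul_apply, map_smul, ← hF k]

theorem E_closed (V : X →L[𝕜] X) : IsClosed ((E V : Submodule 𝕜 (ℕ → X)) : Set (ℕ → X)) := by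
  have : ((E V : Submodule 𝕜 (ℕ → X)) : Set (ℕ → X)) =
      ⋂ k : ℕ, {F : ℕ → X | F k = V (F (k + 1))} := by
    ext F
    simp only [Set.mem_iInter]
    rfl
  rw [this]
  refine isClosed_iInter fun k => ?_
  exact isClosed_eq (continuous_apply k) (V.continuous.comp (continuous_apply (k + 1)))

/-- The operator `U`, the left shift on the index of the sequence. -/
noncomputable def U (V : X →L[𝕜] X) : E V →L[𝕜] E V where
  toFun := fun F => ⟨fun k => F.1 (k + 1), fun k => F.2 (k + 1)⟩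
  map_add' := fun _ _ => rfl
  map_smul' := fun _ _ => rfl
  cont := by
    refine Continuous.subtype_mk ?_ _
    refine continuous_pi fun k => ?_
    exact (continuous_apply (k + 1)).comp continuous_subtype_val

theorem U_iter (V : X →L[𝕜] X) (n : ℕ) (F : E V) (k : ℕ) : ((U V)^[n] F).1 k = F.1 (k + n) := by
  induction n generalizing k with
  | zero => rfl
  | succ n ih =>
    rw [Function.iterate_succ_apply']
    change ((U V)^[n] F).1 (k + 1) = _
    rw [ih, add_assoc, add_comm 1 n]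

theorem frechet (V : X →L[𝕜] X) : IsFrechet 𝕜 (E V) := by
  refine ⟨AddSubgroup.isUniformAddGroup (E V).toAddSubgroup, inferInstance, inferInstance,
    (E_closed V).completeSpace_coe, ?_⟩
  have h1 := withSeminorms_pi (𝕜 := 𝕜) (ι := ℕ) (E := fun _ => X) (κ := fun _ => Fin 1)
    (p := fun _ _ => normSeminorm 𝕜 X) (fun _ => norm_withSeminorms 𝕜 X)
  have h2 := Topology.IsInducing.withSeminorms h1 (f := (E V).subtype)
    Topology.IsInducing.subtypeVal
  have h3 := (h2.congr_equiv (Equiv.sigmaUnique ℕ (fun _ => Fin 1)).symm).partial_sups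
  refine ⟨_, ?_, h3⟩
  intro a b hab
  exact Finset.sup_mono (Finset.Iic_subset_Iic.2 hab)

theorem bij (V : X →L[𝕜] X) (hV : ∀ n x, ‖(V ^ n) x‖ ≤ q n * ‖x‖) (c : 𝕜) :
    Function.Bijective (fun x : E V => x - c • U V x) := by
  by_cases hc : c = 0
  · subst hc
    simp only [zero_smul, sub_zero]
    exact Function.bijective_id
  obtain ⟨u, hu⟩ := isUnit_sub V hV c hc
  have hinv1 : ∀ x, (↑u⁻¹ : X →L[𝕜] X) (V x - c • x) = x := by
    intro x
    have : ((↑u⁻¹ : X →L[𝕜] X) * ↑u) x = x := by rw [u.inv_mul]; rfl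
    rw [hu] at this
    exact this
  have hinv2 : ∀ x, V ((↑u⁻¹ : X →L[𝕜] X) x) - c • (↑u⁻¹ : X →L[𝕜] X) x = x := by
    intro x
    have : ((↑u : X →L[𝕜] X) * ↑u⁻¹) x = x := by rw [u.mul_inv]; rfl
    rw [hu] at this
    exact this
  have hcomm : ∀ x, V ((↑u⁻¹ : X →L[𝕜] X) x) = (↑u⁻¹ : X →L[𝕜] X) (V x) := by
    intro x
    have h1 := hinv2 x
    have h2 := hinv1 x
    rw [map_sub, map_smul] at h2
    rw [sub_eq_iff_eq_add] at h1 h2
    rw [h1, h2]
  constructor
  · intro x y hxy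
    rw [← sub_eq_zero]
    have h0 : (x - y) - c • U V (x - y) = 0 := by
      rw [map_sub, smul_sub]
      have : x - c • U V x = y - c • U V y := hxy
      rw [sub_sub_sub_comm, this, sub_self]
    set z := x - y with hz
    have h1 : ∀ k, z.1 (k + 1) = 0 := by
      intro k
      have h2 : z.1 k - c • z.1 (k + 1) = 0 := by
        have := congrArg (fun w : E V => w.1 k) h0
        exact this
      rw [z.2 k] at h2
      have h3 := hinv1 (z.1 (k + 1))
      rw [h2, map_zero] at h3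
      exact h3.symm
    ext1
    funext k
    rw [z.2 k, h1 k, map_zero]
    rfl
  · intro y
    have hmem : (fun k => (↑u⁻¹ : X →L[𝕜] X) (V (y.1 k))) ∈ E V := by
      intro k
      beta_reduce
      rw [hcomm, ← y.2 k]
    refine ⟨⟨_, hmem⟩, ?_⟩
    ext1
    funext k
    change (↑u⁻¹ : X →L[𝕜] X) (V (y.1 k)) -
      c • (↑u⁻¹ : X →L[𝕜] X) (V (y.1 (k + 1))) = y.1 k
    rw [← y.2 k, ← hcomm, hinv2]

theorem diverge (V : X →L[𝕜] X) (hV : ∀ n x, ‖(V ^ n) x‖ ≤ q n * ‖x‖) (c : 𝕜) (hc : c ≠ 0)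
    (x : E V) (hx : x ≠ 0) :
    ¬ ∃ y : E V, Tendsto (fun N => ∑ k ∈ Finset.range N, c ^ k • (U V)^[k] x) atTop (𝓝 y) := by
  rintro ⟨y, hy⟩
  apply hx
  have : IsUniformAddGroup (E V) := AddSubgroup.isUniformAddGroup (E V).toAddSubgroup
  have h1 : Tendsto (fun N => c ^ N • (U V)^[N] x) atTop (𝓝 0) := by
    have h2 := (hy.comp (tendsto_add_atTop_nat 1)).sub hy
    rw [sub_self] at h2
    refine h2.congr fun N => ?_
    simp only [Function.comp]
    rw [Finset.sum_range_succ, add_sub_cancel_left]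
  ext1
  funext k
  change x.1 k = 0
  have h3 : Tendsto (fun N => c ^ N • x.1 (k + N)) atTop (𝓝 0) := by
    have h4 : Continuous (fun w : E V => w.1 k) :=
      (continuous_apply k).comp continuous_subtype_val
    have h5 := (h4.tendsto 0).comp h1
    refine h5.congr fun N => ?_
    simp only [Function.comp]
    rw [← U_iter V N x k]
    rfl
  have h6 : ∀ N, x.1 k = (V ^ N) (x.1 (k + N)) := by
    intro N
    induction N with
    | zero => rfl
    | succ N ih =>
      rw [pow_succ, ContinuousLinearMap.mul_def, ContinuousLinearMap.comp_apply, ← add_assoc,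
        ← x.2 (k + N)]
      exact ih
  have h7 : ∀ N, ‖x.1 k‖ ≤ (‖c‖⁻¹ ^ N * q N) * ‖c ^ N • x.1 (k + N)‖ := by
    intro N
    have h8 := hV N (x.1 (k + N))
    rw [← h6 N] at h8
    refine h8.trans (le_of_eq ?_)
    rw [norm_smul, norm_pow]
    have : ‖c‖ ≠ 0 := norm_ne_zero_iff.2 hc
    rw [inv_pow]
    field_simp
  have h9 : Tendsto (fun N => (‖c‖⁻¹ ^ N * q N) * ‖c ^ N • x.1 (k + N)‖) atTop (𝓝 0) := by
    have := (tendsto_q _ (inv_pos.2 (norm_pos_iff.2 hc))).mul h3.norm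
    simpa using this
  have h10 : ‖x.1 k‖ ≤ 0 := ge_of_tendsto' h9 h7
  exact norm_le_zero_iff.1 h10

end General

section Concrete
variable (𝕜 : Type) [RCLike 𝕜]

/-- The underlying Banach space: bounded sequences. -/
abbrev X : Type := ℕ →ᵇ 𝕜

/-- The weighted backward shift `(V x)(j) = 2^{-j} x(j+1)`. -/
noncomputable def V : X 𝕜 →L[𝕜] X 𝕜 :=
  LinearMap.mkContinuous
    { toFun := fun x => BoundedContinuousFunction.ofNormedAddCommGroupDiscrete
        (fun j => ((1 / 2 : 𝕜) ^ j) * x (j + 1)) ‖x‖ (by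
          intro j
          rw [norm_mul, norm_pow]
          have h1 : ‖(1 / 2 : 𝕜)‖ ≤ 1 := by
            rw [norm_div, norm_one, RCLike.norm_ofNat]; norm_num
          have h2 : ‖(1 / 2 : 𝕜)‖ ^ j ≤ 1 := pow_le_one₀ (norm_nonneg _) h1
          calc ‖(1 / 2 : 𝕜)‖ ^ j * ‖x (j + 1)‖ ≤ 1 * ‖x‖ :=
                mul_le_mul h2 (x.norm_coe_le_norm _) (norm_nonneg _) zero_le_one
            _ = ‖x‖ := one_mul _)
      map_add' := by
        intro x y
        ext j
        simp [mul_add]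
      map_smul' := by
        intro c x
        ext j
        simp
        ring }
    1 (by
      intro x
      rw [one_mul]
      refine (BoundedContinuousFunction.norm_le (norm_nonneg _)).2 ?_
      intro j
      simp only [LinearMap.coe_mk, AddHom.coe_mk,
        BoundedContinuousFunction.coe_ofNormedAddCommGroupDiscrete]
      rw [norm_mul, norm_pow]
      have h1 : ‖(1 / 2 : 𝕜)‖ ≤ 1 := by
        rw [norm_div, norm_one, RCLike.norm_ofNat]; norm_num
      have h2 : ‖(1 / 2 : 𝕜)‖ ^ j ≤ 1 := pow_le_one₀ (norm_nonneg _) h1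
      calc ‖(1 / 2 : 𝕜)‖ ^ j * ‖x (j + 1)‖ ≤ 1 * ‖x‖ :=
            mul_le_mul h2 (x.norm_coe_le_norm _) (norm_nonneg _) zero_le_one
        _ = ‖x‖ := one_mul _)

theorem V_apply (x : X 𝕜) (j : ℕ) : V 𝕜 x j = ((1 / 2 : 𝕜) ^ j) * x (j + 1) := rfl

theorem norm_half : ‖(1 / 2 : 𝕜)‖ = 1 / 2 := by
  rw [norm_div, norm_one, RCLike.norm_ofNat]

theorem norm_V_pow_apply (n : ℕ) (x : X 𝕜) (j : ℕ) :
    ‖((V 𝕜) ^ n) x j‖ ≤ (1 / 2 : ℝ) ^ (n * j) * q n * ‖x‖ := by
  induction n generalizing j with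
  | zero =>
    simp only [pow_zero, zero_mul, one_mul, one_apply_eq_self]
    unfold q
    simp only [Finset.range_zero, Finset.prod_empty, one_mul]
    exact x.norm_coe_le_norm j
  | succ n ih =>
    rw [pow_succ', ContinuousLinearMap.mul_def, ContinuousLinearMap.comp_apply, V_apply, norm_mul, norm_pow, norm_half]
    calc (1 / 2 : ℝ) ^ j * ‖((V 𝕜) ^ n) x (j + 1)‖
        ≤ (1 / 2 : ℝ) ^ j * ((1 / 2 : ℝ) ^ (n * (j + 1)) * q n * ‖x‖) :=
          mul_le_mul_of_nonneg_left (ih (j + 1)) (by positivity)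
      _ = (1 / 2 : ℝ) ^ ((n + 1) * j) * q (n + 1) * ‖x‖ := by
          rw [q_succ]
          ring

theorem norm_V_pow_le (n : ℕ) (x : X 𝕜) : ‖((V 𝕜) ^ n) x‖ ≤ q n * ‖x‖ := by
  have hq := (q_pos n).le
  refine (BoundedContinuousFunction.norm_le (by positivity)).2 fun j => ?_
  refine (norm_V_pow_apply 𝕜 n x j).trans ?_
  have h1 : (1 / 2 : ℝ) ^ (n * j) ≤ 1 := pow_le_one₀ (by norm_num) (by norm_num)
  calc (1 / 2 : ℝ) ^ (n * j) * q n * ‖x‖ ≤ 1 * q n * ‖x‖ := by gcongr
    _ = q n * ‖x‖ := by rw [one_mul]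

theorem nontriv : ∃ x : E (V 𝕜), x ≠ 0 := by
  let F : ℕ → X 𝕜 := fun k => BoundedContinuousFunction.ofNormedAddCommGroupDiscrete
    (fun j => if j = k then ((q k : ℝ) : 𝕜)⁻¹ else 0) ‖((q k : ℝ) : 𝕜)⁻¹‖ (by
      intro j
      split_ifs
      · exact le_rfl
      · rw [norm_zero]; exact norm_nonneg _)
  have hF : F ∈ E (V 𝕜) := by
    intro k
    ext j
    rw [V_apply]
    change (if j = k then ((q k : ℝ) : 𝕜)⁻¹ else 0) =
      (1 / 2 : 𝕜) ^ j * (if j + 1 = k + 1 then ((q (k + 1) : ℝ) : 𝕜)⁻¹ else 0)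
    by_cases hjk : j = k
    · subst hjk
      simp only [if_true]
      rw [q_succ]
      have hq : ((q j : ℝ) : 𝕜) ≠ 0 := by
        exact_mod_cast (q_pos j).ne'
      push_cast
      field_simp
    · have : ¬ (j + 1 = k + 1) := by omega
      rw [if_neg hjk, if_neg this, mul_zero]
  refine ⟨⟨F, hF⟩, fun h => ?_⟩
  have h1 : F 0 0 = 0 := by
    have := congrArg (fun w : E (V 𝕜) => w.1 0 0) h
    exact this
  have h2 : F 0 0 = ((q 0 : ℝ) : 𝕜)⁻¹ := rfl
  rw [h2] at h1
  have : ((q 0 : ℝ) : 𝕜) ≠ 0 := by exact_mod_cast (q_pos 0).ne'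
  exact this (inv_eq_zero.1 h1)

end Concrete

/-- For `𝕜 = ℝ` or `ℂ` there is a Frechet space `E ≠ 0` and a continuous linear `U` on it such that
`I - c U` is bijective for every scalar `c`, while for every `c ≠ 0` and every `x ≠ 0` the Neumann
series of `x` at `c` diverges. -/
theorem result (𝕜 : Type) [RCLike 𝕜] :
    ∃ (E : Type) (_ : AddCommGroup E) (_ : Module 𝕜 E) (_ : UniformSpace E),
      IsFrechet 𝕜 E ∧ (∃ x : E, x ≠ 0) ∧
      ∃ U : E →L[𝕜] E,
        (∀ c : 𝕜, Function.Bijective (fun x : E => x - c • U x)) ∧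
        ∀ c : 𝕜, c ≠ 0 → ∀ x : E, x ≠ 0 →
          ¬ ∃ y : E, Tendsto (fun N => ∑ k ∈ Finset.range N, c ^ k • (U^[k] x)) atTop (𝓝 y) :=
  ⟨E (V 𝕜), inferInstance, inferInstance, inferInstance, frechet (V 𝕜), nontriv 𝕜, U (V 𝕜),
    bij (V 𝕜) (norm_V_pow_le 𝕜), diverge (V 𝕜) (norm_V_pow_le 𝕜)⟩

end Pool.Agent.Results.MP_18d2fb_an.NeumannDiverges
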